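import Pool.Agent.Y258.SX.XStmts
import Pool.Agent.Y255.SD.A78

set_option autoImplicit false

/-!
# Relations: sums over supports (X6), (X7), (X8), (X9)

Job Y258-X NT2 of helper258, adapted from `Pool.Agent.Y255.SD.A78`.
-/

namespace Pool.Agent.Y496.SX

open Finset Pool.Agent.H935R2.PS Pool.Agent.Y258 Pool.Agent.Y255.SD

section gen
variable {q : ℕ} [hq : Fact q.Prime]

lemma BdL_smul {ι : Type} [Fintype ι] {D K0 : ℕ} {c : ZMod q} (hc : c ≠ 0) (h : ι → ZMod q) :
    BdL D K0 (fun a => c * h a) ↔ BdL D K0 h := by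
  constructor
  · rintro ⟨d, hd, hb⟩
    refine ⟨d * c, mul_ne_zero hd hc, ?_⟩
    have e : (fun a => d * c * h a) = fun a => d * (c * h a) := by funext a; ring
    rw [e]; exact hb
  · rintro ⟨d, hd, hb⟩
    refine ⟨d * c⁻¹, mul_ne_zero hd (inv_ne_zero hc), ?_⟩
    have e : (fun a => d * c⁻¹ * (c * h a)) = fun a => d * h a := by
      funext a
      rw [mul_assoc, inv_mul_cancel_left₀ hc]
    rw [e]; exact hb

lemma XW_smul {ι : Type} [Fintype ι] {D K0 : ℕ} {c : ZMod q} (hc : c ≠ 0) (h : ι → ZMod q) :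
    XW D K0 (fun a => c * h a) = XW D K0 h := by
  unfold XW
  refine Finset.sum_nbij' (i := fun d => d * c) (j := fun d => d * c⁻¹) ?_ ?_ ?_ ?_ ?_
  · intro d hd
    rw [mem_filter] at hd ⊢
    exact ⟨mem_univ _, mul_ne_zero hd.2 hc⟩
  · intro d hd
    rw [mem_filter] at hd ⊢
    exact ⟨mem_univ _, mul_ne_zero hd.2 (inv_ne_zero hc)⟩
  · intro d _
    exact mul_inv_cancel_right₀ hc d
  · intro d _
    exact inv_mul_cancel_right₀ hc d
  · intro d _
    have e : (fun a => d * (c * h a)) = fun a => d * c * h a := by funext a; ring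
    rw [e]

lemma XW_ex {I : Type} [Fintype I] [DecidableEq I] (D K0 : ℕ) (S : Finset I) (h : S → ZMod q) :
    XW D K0 (ex S h) = XW D K0 h := by
  unfold XW
  refine Finset.sum_congr rfl fun c _ => ?_
  rw [sz_ex]

omit hq in
lemma BdL_ex {I : Type} [Fintype I] [DecidableEq I] (D K0 : ℕ) (S : Finset I) (h : S → ZMod q) :
    BdL D K0 (ex S h) ↔ BdL D K0 h := by
  unfold BdL
  exact exists_congr fun c => and_congr_right fun _ => Bd_ex D K0 S h c

lemma XW_nonneg {ι : Type} [Fintype ι] (D K0 : ℕ) (h : ι → ZMod q) : 0 ≤ XW D K0 h := by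
  unfold XW
  exact Finset.sum_nonneg fun c _ => by positivity

/-- no vector without zero entries and with at most `D` entries is allowed -/
lemma small_BdL (h3 : 3 ≤ q) {κ : Type} [Fintype κ] [DecidableEq κ] (a0 : κ) (D K0 : ℕ)
    (hD : Fintype.card κ ≤ D) (hK : K0 ≤ La q) (h : κ → ZMod q) (hh : ∀ a, h a ≠ 0) :
    BdL D K0 h := small_bad h3 a0 D K0 hD hK h hh

lemma supp_bound {n : ℕ} (X : ℝ) (P : (Option (Fin (n + 2)) → ZMod q) → Prop)
    [DecidablePred P] [∀ S : Finset (Option (Fin (n + 2))),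
      DecidablePred (fun h : S → ZMod q => (∀ a, h a ≠ 0) ∧ P (ex S h))]
    (F : (Option (Fin (n + 2)) → ZMod q) → ℝ)
    (hX : ∀ S : Finset (Option (Fin (n + 2))),
      ∑ h ∈ (univ : Finset (S → ZMod q)).filter (fun h => (∀ a, h a ≠ 0) ∧ P (ex S h)),
        F (ex S h) ≤ X) :
    ∑ H ∈ (univ : Finset (Option (Fin (n + 2)) → ZMod q)).filter P, F H ≤
      2 ^ (n + 3) * X := by
  rw [sum_supp (q := q) (I := Option (Fin (n + 2))) P F]
  refine (Finset.sum_le_card_nsmul _ _ _ fun S _ => hX S).trans ?_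
  have hcard : (univ : Finset (Finset (Option (Fin (n + 2))))).card = 2 ^ (n + 3) := by
    rw [Finset.card_univ, Fintype.card_finset]
    simp
  rw [hcard, nsmul_eq_mul]
  push_cast
  exact le_rfl

lemma card_le {n : ℕ} (S : Finset (Option (Fin (n + 2)))) : Fintype.card S ≤ n + 3 := by
  rw [Fintype.card_coe]
  refine (Finset.card_le_univ S).trans ?_
  simp

lemma norm_Fc_le {t : ℕ} {φ : ℝ} (ht : t < q) (h0 : 0 ≤ φ) (h1 : φ ≤ 1) (x : ZMod q) :
    ‖Fc t φ x‖ ≤ 1 / mx x := by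
  by_cases hx : x = 0
  · subst hx
    have : mx (0 : ZMod q) = 1 := by unfold mx nn; simp
    rw [this, div_one]
    exact norm_Fc_zero ht h0 h1
  · rw [TA2.mx_eq _ hx]
    exact norm_Fc h0 h1 hx

omit hq in
lemma two_pow_sz {ι : Type} [Fintype ι] (h : ι → ZMod q) :
    1 / (2:ℝ) ^ sz h ≤ 2 ^ Fintype.card ι * wm h := by
  unfold sz wm
  rw [← Finset.prod_pow_eq_pow_sum]
  have e : (1:ℝ) / ∏ a, (2:ℝ) ^ dl (h a) = ∏ a, (1 / (2:ℝ) ^ dl (h a)) := by
    rw [Finset.prod_div_distrib, Finset.prod_const_one]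
  have e2 : (2:ℝ) ^ Fintype.card ι * ∏ a, 1 / mx (h a) = ∏ a : ι, (2 * (1 / mx (h a))) := by
    rw [Finset.prod_mul_distrib, Finset.prod_const, Finset.card_univ]
  rw [e, e2]
  refine Finset.prod_le_prod (fun _ _ => by positivity) fun a _ => ?_
  have h1 : (1:ℝ) ≤ mx (h a) := TA2.one_le_mx _
  have h2 : mx (h a) ≤ 2 * 2 ^ dl (h a) := by
    unfold mx
    refine max_le ?_ ?_
    · have : (1:ℝ) ≤ 2 ^ dl (h a) := one_le_pow₀ (by norm_num)
      linarith
    · have h3 : nn (h a) < 2 ^ (dl (h a) + 1) := by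
        unfold dl
        exact Nat.lt_pow_succ_log_self (by norm_num) _
      have h4 : (nn (h a) : ℝ) ≤ ((2 ^ (dl (h a) + 1) : ℕ) : ℝ) := by exact_mod_cast h3.le
      refine h4.trans (le_of_eq ?_)
      push_cast
      ring
  rw [mul_one_div, div_le_div_iff₀ (by positivity) (by linarith)]
  linarith

end gen

lemma uu_sq (q : ℕ) (hL : 1 ≤ La q) : ((uu q : ℝ)) ^ 2 ≤ 4 * La q := by
  have h : ∀ k : ℕ, (k + 1) ^ 2 ≤ 4 * 2 ^ k := by
    intro k
    induction k with
    | zero => norm_num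
    | succ k ih =>
      rcases Nat.lt_or_ge k 2 with hk | hk
      · interval_cases k <;> norm_num
      · have h1 : (k + 1 + 1) ^ 2 ≤ 2 * (k + 1) ^ 2 := by nlinarith
        calc (k + 1 + 1) ^ 2 ≤ 2 * (k + 1) ^ 2 := h1
          _ ≤ 2 * (4 * 2 ^ k) := Nat.mul_le_mul_left _ ih
          _ = 4 * 2 ^ (k + 1) := by ring
  have h1 : 2 ^ (Nat.log 2 (La q)) ≤ La q := Nat.pow_log_le_self 2 (by omega)
  have h2 : (uu q) ^ 2 ≤ 4 * La q := by
    unfold uu
    exact (h _).trans (Nat.mul_le_mul_left _ h1)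
  exact_mod_cast h2

lemma thr {n κ u K : ℕ} (hκ : κ ≤ n + 3) (h : (n + 11) * u ≤ K) : max 11 (κ + 2) * u ≤ K :=
  (Nat.mul_le_mul_right _ (by omega)).trans h

open Classical in
/-- the sum over the allowed lines with large total weight -/
theorem XE (h4 : St_X4) : ∀ n : ℕ, ∃ C : ℕ, ∀ (q : ℕ) [Fact q.Prime], Suit q → C ≤ q →
    ∀ (D K0 : ℕ), 1 ≤ D → D ≤ n + 2 → (n + 11) * uu q ≤ K0 → K0 ≤ La q →
    ∑ H ∈ (univ : Finset (Option (Fin (n + 2)) → ZMod q)).filter (fun H => H none ≠ 0 ∧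
        ¬ BdL D K0 H ∧ 2 ^ (n + 6) < XW D K0 H), wm H ≤
      C * (La q : ℝ) ^ (n + 1) * (uu q : ℝ) ^ 2 := by
  intro n
  have h4' : ∀ m : ℕ, _ := fun m => h4 (m + 2) (by omega)
  choose C4 hC4 using h4'
  set CC4 : ℕ := ∑ m ∈ range (n + 2), C4 m with hCC4
  have hc4 : ∀ m, m < n + 2 → C4 m ≤ CC4 := fun m hm =>
    Finset.single_le_sum (f := C4) (fun _ _ => Nat.zero_le _) (mem_range.2 hm)
  refine ⟨3 + 2 ^ (n + 3) * CC4, ?_⟩
  intro q _ hS hq D K0 hD1 hDn hK0 hKL
  have hCle : CC4 ≤ 3 + 2 ^ (n + 3) * CC4 := by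
    have : 1 * CC4 ≤ 2 ^ (n + 3) * CC4 := Nat.mul_le_mul_right _ Nat.one_le_two_pow
    omega
  have h3 : 3 ≤ q := le_trans (Nat.le_add_right _ _) hq
  have hL : (1 : ℝ) ≤ La q := by exact_mod_cast La_pos h3
  set X : ℝ := (La q : ℝ) ^ (n + 1) * (uu q : ℝ) ^ 2 with hX
  have hX0 : 0 ≤ X := by positivity
  refine le_trans (supp_bound (q := q) (n := n) (CC4 * X) _ _ ?_) ?_
  · intro S
    simp only [BdL_ex, XW_ex, wm_ex]
    by_cases hSn : none ∈ S
    · have hcard := card_le S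
      rcases le_or_gt (Fintype.card S) D with hc | hc
      · have e : (univ : Finset (S → ZMod q)).filter (fun h => (∀ a, h a ≠ 0) ∧
            ex S h none ≠ 0 ∧ ¬ BdL D K0 h ∧ 2 ^ (n + 6) < XW D K0 h) = ∅ := by
          refine Finset.filter_eq_empty_iff.2 fun h _ hh => ?_
          exact hh.2.2.1 (small_BdL h3 ⟨none, hSn⟩ D K0 hc hKL h hh.1)
        rw [e, Finset.sum_empty]
        positivity
      · obtain ⟨m, hm⟩ : ∃ m, Fintype.card S = m + 2 := ⟨Fintype.card S - 2, by omega⟩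
        have h10 := hC4 m q hS (((hc4 m (by omega)).trans hCle).trans hq) S hm D K0 hD1
          (by omega) (thr (by omega) hK0)
        have h11 : ∑ h ∈ (univ : Finset (S → ZMod q)).filter (fun h => (∀ a, h a ≠ 0) ∧
            ex S h none ≠ 0 ∧ ¬ BdL D K0 h ∧ 2 ^ (n + 6) < XW D K0 h), wm h ≤
            ∑ h ∈ (univ : Finset (S → ZMod q)).filter (fun h => (∀ a, h a ≠ 0) ∧ ¬ BdL D K0 h ∧
              2 ^ (m + 2 + 3) < XW D K0 h), wt h := by
          calc _ = ∑ h ∈ (univ : Finset (S → ZMod q)).filter (fun h => (∀ a, h a ≠ 0) ∧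
                ex S h none ≠ 0 ∧ ¬ BdL D K0 h ∧ 2 ^ (n + 6) < XW D K0 h), wt h :=
              Finset.sum_congr rfl fun h hh => (wt_eq_wm (mem_filter.1 hh).2.1).symm
            _ ≤ _ := by
              refine Finset.sum_le_sum_of_subset_of_nonneg ?_ ?_
              · intro h hh
                rw [mem_filter] at hh ⊢
                refine ⟨mem_univ _, hh.2.1, hh.2.2.2.1, lt_of_le_of_lt ?_ hh.2.2.2.2⟩
                exact pow_le_pow_right₀ (by norm_num) (by omega)
              · intro h hh _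
                rw [wt_eq_wm (mem_filter.1 hh).2.1]
                exact wm_nonneg h
        refine h11.trans (h10.trans ?_)
        have h12 : ((C4 m : ℕ) : ℝ) ≤ (CC4 : ℝ) := by exact_mod_cast hc4 m (by omega)
        have h13 : (La q : ℝ) ^ (m + 2 - 2) ≤ (La q : ℝ) ^ (n + 1) :=
          pow_le_pow_right₀ hL (by omega)
        rw [hX, ← mul_assoc]
        refine mul_le_mul_of_nonneg_right ?_ (by positivity)
        exact mul_le_mul h12 h13 (by positivity) (by positivity)
    · have e : (univ : Finset (S → ZMod q)).filter (fun h => (∀ a, h a ≠ 0) ∧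
            ex S h none ≠ 0 ∧ ¬ BdL D K0 h ∧ 2 ^ (n + 6) < XW D K0 h) = ∅ := by
        refine Finset.filter_eq_empty_iff.2 fun h _ hh => ?_
        exact hh.2.1 (ex_notMem S h hSn)
      rw [e, Finset.sum_empty]
      positivity
  rw [mul_assoc _ ((La q : ℝ) ^ (n + 1)), ← hX]
  push_cast
  nlinarith

open Classical in
/-- (A7) with the explicit threshold -/
theorem A7X (h2 : St_X2) (h5 : St_A5) : ∀ n : ℕ, ∃ C : ℕ, ∀ (q : ℕ) [Fact q.Prime], Suit q →
    C ≤ q → ∀ (D K0 : ℕ) (t : Option (Fin (n + 2)) → ℕ) (φ : Option (Fin (n + 2)) → ℝ), 1 ≤ D →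
    D ≤ n + 2 → (n + 11) * uu q ≤ K0 → K0 ≤ La q → (∀ o, t o < q) → (∀ o, 0 ≤ φ o) →
    (∀ o, φ o ≤ 1) →
    ‖∑ H ∈ (univ : Finset (Option (Fin (n + 2)) → ZMod q)).filter (fun H => H none ≠ 0 ∧
        BdL D K0 H), ∏ o, Fc (t o) (φ o) (H o)‖ ≤
      C * (La q : ℝ) ^ (n + 1) * (uu q : ℝ) ^ 2 := by
  intro n
  have h2' : ∀ m : ℕ, _ := fun m => h2 (m + 2) (by omega)
  have h5' : ∀ m : ℕ, _ := fun m => h5 (m + 2) (by omega)
  choose C2 hC2 using h2'
  choose C5 hC5 using h5'
  set CC2 : ℕ := ∑ m ∈ range (n + 2), C2 m with hCC2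
  set CC5 : ℕ := ∑ m ∈ range (n + 2), ⌈C5 m⌉₊ with hCC5
  have hc2 : ∀ m, m < n + 2 → C2 m ≤ CC2 := fun m hm =>
    Finset.single_le_sum (f := C2) (fun _ _ => Nat.zero_le _) (mem_range.2 hm)
  have hc5 : ∀ m, m < n + 2 → C5 m ≤ CC5 := fun m hm => (Nat.le_ceil _).trans (by
    exact_mod_cast Finset.single_le_sum (f := fun m => ⌈C5 m⌉₊) (fun _ _ => Nat.zero_le _)
      (mem_range.2 hm))
  refine ⟨3 + 2 ^ (n + 3) * (1 + CC5 + CC2), ?_⟩
  intro q _ hS hq D K0 t φ hD1 hDn hK0 hKL ht hφ0 hφ1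
  have hCle : CC2 ≤ 3 + 2 ^ (n + 3) * (1 + CC5 + CC2) := by
    have : 1 * (1 + CC5 + CC2) ≤ 2 ^ (n + 3) * (1 + CC5 + CC2) :=
      Nat.mul_le_mul_right _ Nat.one_le_two_pow
    omega
  have h3 : 3 ≤ q := le_trans (Nat.le_add_right _ _) hq
  have hL : (1 : ℝ) ≤ La q := by exact_mod_cast La_pos h3
  have hu : (1 : ℝ) ≤ uu q := by exact_mod_cast uu_pos q
  have hLp : ∀ k : ℕ, (1 : ℝ) ≤ (La q : ℝ) ^ k := fun k => one_le_pow₀ hL
  have hup : (1 : ℝ) ≤ (uu q : ℝ) ^ 2 := one_le_pow₀ hu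
  set X : ℝ := (La q : ℝ) ^ (n + 1) * (uu q : ℝ) ^ 2 with hX
  have hX1 : 1 ≤ X := by
    rw [hX]; nlinarith [hLp (n + 1)]
  rw [sum_supp]
  refine (norm_sum_le _ _).trans ?_
  have key : ∀ S : Finset (Option (Fin (n + 2))),
      ‖∑ h ∈ (univ : Finset (S → ZMod q)).filter (fun h => (∀ a, h a ≠ 0) ∧
        (ex S h none ≠ 0 ∧ BdL D K0 (ex S h))),
        ∏ o, Fc (t o) (φ o) (ex S h o)‖ ≤ (1 + CC5 + CC2) * X := by
    intro S
    by_cases hSn : none ∈ S
    · have e : (univ : Finset (S → ZMod q)).filter (fun h => (∀ a, h a ≠ 0) ∧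
          (ex S h none ≠ 0 ∧ BdL D K0 (ex S h))) =
          (univ : Finset (S → ZMod q)).filter (fun h => (∀ a, h a ≠ 0) ∧
            ∃ c : ZMod q, c ≠ 0 ∧ Bd D K0 (fun a => c * h a)) := by
        refine Finset.filter_congr fun h _ => ?_
        rw [BdL_ex]
        refine and_congr_right fun hh => ⟨fun h => h.2, fun h' => ⟨?_, h'⟩⟩
        rw [ex_mem S h ⟨none, hSn⟩]
        exact hh _
      rw [e]
      have e2 : ∑ h ∈ (univ : Finset (S → ZMod q)).filter (fun h => (∀ a, h a ≠ 0) ∧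
            ∃ c : ZMod q, c ≠ 0 ∧ Bd D K0 (fun a => c * h a)),
          ∏ o, Fc (t o) (φ o) (ex S h o) =
          (∑ h ∈ (univ : Finset (S → ZMod q)).filter (fun h => (∀ a, h a ≠ 0) ∧
            ∃ c : ZMod q, c ≠ 0 ∧ Bd D K0 (fun a => c * h a)),
            ∏ a : S, Fc (t a) (φ a) (h a)) * ∏ o ∈ Sᶜ, Fc (q := q) (t o) (φ o) 0 := by
        rw [Finset.sum_mul]
        exact Finset.sum_congr rfl fun h _ => prod_ex S h (fun o x => Fc (t o) (φ o) x)
      rw [e2, norm_mul]
      have h8 : ‖∏ o ∈ Sᶜ, Fc (q := q) (t o) (φ o) 0‖ ≤ 1 := by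
        rw [norm_prod]
        exact Finset.prod_le_one (fun _ _ => norm_nonneg _) fun o _ =>
          norm_Fc_zero (ht o) (hφ0 o) (hφ1 o)
      have hcard := card_le S
      have h9 : ‖∑ h ∈ (univ : Finset (S → ZMod q)).filter (fun h => (∀ a, h a ≠ 0) ∧
            ∃ c : ZMod q, c ≠ 0 ∧ Bd D K0 (fun a => c * h a)),
            ∏ a : S, Fc (t a) (φ a) (h a)‖ ≤ 1 + CC5 + CC2 * X := by
        refine part7 h3 ⟨none, hSn⟩ hD1 hKL (t := fun a : S => t a) (φ := fun a : S => φ a)
          (fun a => ht a) (fun a => hφ0 a) (fun a => hφ1 a) (by positivity) (by positivity) ?_ ?_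
        · intro hlt
          obtain ⟨m, hm⟩ : ∃ m, Fintype.card S = m + 2 := ⟨Fintype.card S - 2, by omega⟩
          refine ((hC5 m).2 q h3 S hm D K0 _ _ (fun a => ht a) (fun a => hφ0 a)
            (fun a => hφ1 a)).trans (hc5 m (by omega))
        · intro hlt
          obtain ⟨m, hm⟩ : ∃ m, Fintype.card S = m + 2 := ⟨Fintype.card S - 2, by omega⟩
          have h10 := hC2 m q hS (((hc2 m (by omega)).trans hCle).trans hq) S hm D K0 hD1
            (by omega) (thr (by omega) hK0)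
          have e10 : ∑ h ∈ (univ : Finset (S → ZMod q)).filter (fun h => (∀ a, h a ≠ 0) ∧
              ¬ BdP D K0 h ∧ ∃ c : ZMod q, c ≠ 0 ∧ Bd D K0 (fun a => c * h a)), wt h =
              ∑ h ∈ (univ : Finset (S → ZMod q)).filter (fun h => (∀ a, h a ≠ 0) ∧
              ¬ BdP D K0 h ∧ BdL D K0 h), wt h :=
            Finset.sum_congr (Finset.filter_congr fun h _ => Iff.rfl) fun _ _ => rfl
          rw [e10]
          refine h10.trans ?_
          have h11 : ((C2 m : ℕ) : ℝ) ≤ (CC2 : ℝ) := by exact_mod_cast hc2 m (by omega)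
          have h12 : (La q : ℝ) ^ (m + 2 - 2) ≤ (La q : ℝ) ^ (n + 1) :=
            pow_le_pow_right₀ hL (by omega)
          rw [hX, ← mul_assoc]
          refine mul_le_mul_of_nonneg_right ?_ (by positivity)
          exact mul_le_mul h11 h12 (by positivity) (by positivity)
      calc _ ≤ (1 + CC5 + CC2 * X) * 1 := mul_le_mul h9 h8 (norm_nonneg _) (by positivity)
        _ ≤ (1 + CC5 + CC2) * X := by
          have : (0 : ℝ) ≤ CC5 := Nat.cast_nonneg _
          nlinarith
    · have e : (univ : Finset (S → ZMod q)).filter (fun h => (∀ a, h a ≠ 0) ∧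
          (ex S h none ≠ 0 ∧ BdL D K0 (ex S h))) = ∅ := by
        refine Finset.filter_eq_empty_iff.2 fun h _ hh => ?_
        exact hh.2.1 (ex_notMem S h hSn)
      rw [e, Finset.sum_empty, norm_zero]
      positivity
  refine (Finset.sum_le_card_nsmul _ _ _ fun S _ => key S).trans ?_
  have hcard : (univ : Finset (Finset (Option (Fin (n + 2))))).card = 2 ^ (n + 3) := by
    rw [Finset.card_univ, Fintype.card_finset]
    simp
  rw [hcard, nsmul_eq_mul, hX]
  push_cast
  have h20 : (0 : ℝ) ≤ (La q : ℝ) ^ (n + 1) * (uu q : ℝ) ^ 2 := by positivity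
  nlinarith

theorem x7 (h2 : St_X2) (h4 : St_X4) (h5 : St_A5) (h6 : St_A6a) : St_X7 := by
  classical
  intro n
  obtain ⟨C1, hC1⟩ := A7X h2 h5 n
  obtain ⟨C2, hC2⟩ := XE h4 n
  refine ⟨C1 + C2, ?_⟩
  intro q _ hS hq D K0 t φ hD1 hDn hK0 hKL ht hφ0 hφ1
  have h1 := hC1 q hS (le_trans (Nat.le_add_right _ _) hq) D K0 t φ hD1 hDn hK0 hKL ht hφ0 hφ1
  have h2 := hC2 q hS (le_trans (Nat.le_add_left _ _) hq) D K0 hD1 hDn hK0 hKL
  rw [← Finset.sum_filter_add_sum_filter_not _ (fun H : Option (Fin (n + 2)) → ZMod q =>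
    BdL D K0 H), Finset.filter_filter, Finset.filter_filter]
  have e1 : (univ : Finset (Option (Fin (n + 2)) → ZMod q)).filter (fun H => (H none ≠ 0 ∧
      BX (2 ^ (n + 6)) D K0 H) ∧ BdL D K0 H) =
      (univ : Finset (Option (Fin (n + 2)) → ZMod q)).filter (fun H => H none ≠ 0 ∧
        BdL D K0 H) := by
    refine Finset.filter_congr fun H _ => ⟨fun h => ⟨h.1.1, h.2⟩, fun h => ⟨⟨h.1, Or.inl h.2⟩, h.2⟩⟩
  have e2 : (univ : Finset (Option (Fin (n + 2)) → ZMod q)).filter (fun H => (H none ≠ 0 ∧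
      BX (2 ^ (n + 6)) D K0 H) ∧ ¬ BdL D K0 H) =
      (univ : Finset (Option (Fin (n + 2)) → ZMod q)).filter (fun H => H none ≠ 0 ∧
        ¬ BdL D K0 H ∧ 2 ^ (n + 6) < XW D K0 H) := by
    refine Finset.filter_congr fun H _ => ⟨fun h => ⟨h.1.1, h.2, ?_⟩,
      fun h => ⟨⟨h.1, Or.inr h.2.2⟩, h.2.1⟩⟩
    rcases h.1.2 with h' | h'
    · exact absurd h' h.2
    · exact h'
  rw [e1, e2]
  refine (norm_add_le _ _).trans ?_
  have h3 : ‖∑ H ∈ (univ : Finset (Option (Fin (n + 2)) → ZMod q)).filter (fun H => H none ≠ 0 ∧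
        ¬ BdL D K0 H ∧ 2 ^ (n + 6) < XW D K0 H), ∏ o, Fc (t o) (φ o) (H o)‖ ≤
      ∑ H ∈ (univ : Finset (Option (Fin (n + 2)) → ZMod q)).filter (fun H => H none ≠ 0 ∧
        ¬ BdL D K0 H ∧ 2 ^ (n + 6) < XW D K0 H), wm H := by
    refine (norm_sum_le _ _).trans (Finset.sum_le_sum fun H _ => ?_)
    rw [norm_prod]
    unfold wm
    exact Finset.prod_le_prod (fun _ _ => norm_nonneg _) fun o _ =>
      norm_Fc_le (ht o) (hφ0 o) (hφ1 o) (H o)
  push_cast
  linarith

theorem x8 (h5 : St_X5) (h6 : St_A6a) : St_X8 := by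
  classical
  intro n e
  obtain ⟨C5, hC5⟩ := h5 (n + 2) (by omega) e
  choose C6 hC6 using h6
  set CC6 : ℕ := ∑ m ∈ range (n + 2), ⌈C6 m⌉₊ with hCC6
  have hc6 : ∀ m, m < n + 2 → C6 m ≤ CC6 := fun m hm => (Nat.le_ceil _).trans (by
    exact_mod_cast Finset.single_le_sum (f := fun m => ⌈C6 m⌉₊) (fun _ _ => Nat.zero_le _)
      (mem_range.2 hm))
  refine ⟨3 + 2 ^ (n + 3) * (CC6 + C5), ?_⟩
  intro q _ hS hq D K0 a0 hD1 hDn hK0 hKL
  have hCle : C5 ≤ 3 + 2 ^ (n + 3) * (CC6 + C5) := by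
    have : 1 * (CC6 + C5) ≤ 2 ^ (n + 3) * (CC6 + C5) :=
      Nat.mul_le_mul_right _ Nat.one_le_two_pow
    omega
  have h3 : 3 ≤ q := le_trans (Nat.le_add_right _ _) hq
  have hL : (1 : ℝ) ≤ La q := by exact_mod_cast La_pos h3
  have hu : (1 : ℝ) ≤ uu q := by exact_mod_cast uu_pos q
  set X : ℝ := (La q : ℝ) ^ (n + 1) * uu q with hX
  have hX0 : 0 ≤ X := by positivity
  refine le_trans (supp_bound (q := q) (n := n) ((CC6 + C5) * X) _ _ ?_) ?_
  · intro S
    simp only [BdL_ex, XW_ex, wm_ex]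
    by_cases hSn : none ∈ S ∧ some a0 ∉ S
    · obtain ⟨hS1, hS2⟩ := hSn
      have e' : (univ : Finset (S → ZMod q)).filter (fun h => (∀ a, h a ≠ 0) ∧
          ex S h none ≠ 0 ∧ ex S h (some a0) = 0 ∧ ¬ BdL D K0 h) =
          (univ : Finset (S → ZMod q)).filter (fun h => (∀ a, h a ≠ 0) ∧ ¬ BdL D K0 h) := by
        refine Finset.filter_congr fun h _ => ?_
        refine and_congr_right fun hh => ⟨fun h => h.2.2, fun h' => ⟨?_, ex_notMem S h hS2, h'⟩⟩
        rw [ex_mem S h ⟨none, hS1⟩]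
        exact hh _
      rw [e']
      have hcard : Fintype.card S ≤ n + 2 := by
        rw [Fintype.card_coe]
        have : S ⊆ univ.erase (some a0) := fun x hx => by
          rw [mem_erase]
          exact ⟨fun h => hS2 (h ▸ hx), mem_univ _⟩
        refine (Finset.card_le_card this).trans ?_
        rw [Finset.card_erase_of_mem (mem_univ _), Finset.card_univ]
        simp
      rcases Nat.lt_or_ge (Fintype.card S) (n + 2) with hlt | hge
      · have h10 := (hC6 (Fintype.card S)).2 q h3 S rfl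
        have h11 : ∑ h ∈ (univ : Finset (S → ZMod q)).filter (fun h => (∀ a, h a ≠ 0) ∧
            ¬ BdL D K0 h), wm h * min 1 (e * La q * XW D K0 h) ≤
            ∑ h : S → ZMod q, wm h := by
          refine (Finset.sum_le_sum fun h _ => ?_).trans
            (Finset.sum_le_sum_of_subset_of_nonneg (Finset.filter_subset _ _)
              fun h _ _ => wm_nonneg h)
          exact mul_le_of_le_one_right (wm_nonneg h) (min_le_left _ _)
        refine h11.trans (h10.trans ?_)
        have h12 : (La q : ℝ) ^ Fintype.card S ≤ X := by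
          have h14 : (La q : ℝ) ^ Fintype.card S ≤ (La q : ℝ) ^ (n + 1) :=
            pow_le_pow_right₀ hL (by omega)
          have h15 : (0:ℝ) ≤ (La q : ℝ) ^ (n + 1) := by positivity
          rw [hX]
          nlinarith
        have h13 := hc6 _ hlt
        calc C6 (Fintype.card S) * (La q : ℝ) ^ Fintype.card S
            ≤ CC6 * X := mul_le_mul h13 h12 (by positivity) (by positivity)
          _ ≤ (CC6 + C5) * X := by
            refine mul_le_mul_of_nonneg_right ?_ (by positivity)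
            have : (0 : ℝ) ≤ C5 := Nat.cast_nonneg _
            linarith
      · have hceq : Fintype.card S = n + 2 := le_antisymm hcard hge
        rcases Nat.lt_or_ge D (n + 2) with hD | hD
        · have h10 := hC5 q hS (hCle.trans hq) S hceq D K0 hD1 hD (by
            have : (max 11 (n + 2 + 2) + 1) * uu q ≤ (n + 12) * uu q :=
              Nat.mul_le_mul_right _ (by omega)
            omega)
          have h14 : ∑ h ∈ (univ : Finset (S → ZMod q)).filter (fun h => (∀ a, h a ≠ 0) ∧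
              ¬ BdL D K0 h), wm h * min 1 (e * La q * XW D K0 h) =
              ∑ h ∈ (univ : Finset (S → ZMod q)).filter (fun h => (∀ a, h a ≠ 0) ∧
              ¬ BdL D K0 h), wt h * min 1 (e * La q * XW D K0 h) := by
            refine Finset.sum_congr rfl fun h hh => ?_
            rw [mem_filter] at hh
            rw [wt_eq_wm hh.2.1]
          rw [h14]
          refine h10.trans ?_
          have h15 : n + 2 - 1 = n + 1 := by omega
          rw [h15, mul_assoc, ← hX]
          refine mul_le_mul_of_nonneg_right ?_ (by positivity)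
          have : (0 : ℝ) ≤ CC6 := Nat.cast_nonneg _
          linarith
        · have e3 : (univ : Finset (S → ZMod q)).filter (fun h => (∀ a, h a ≠ 0) ∧
              ¬ BdL D K0 h) = ∅ := by
            refine Finset.filter_eq_empty_iff.2 fun h _ hh => ?_
            exact hh.2 (small_BdL h3 (⟨none, hS1⟩ : S) D K0 (by omega) hKL h hh.1)
          rw [e3, Finset.sum_empty]
          positivity
    · have e' : (univ : Finset (S → ZMod q)).filter (fun h => (∀ a, h a ≠ 0) ∧
          ex S h none ≠ 0 ∧ ex S h (some a0) = 0 ∧ ¬ BdL D K0 h) = ∅ := by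
        refine Finset.filter_eq_empty_iff.2 fun h _ hh => ?_
        refine hSn ⟨?_, ?_⟩
        · by_contra hc
          exact hh.2.1 (ex_notMem S h hc)
        · intro hc
          have := hh.2.2.1
          rw [ex_mem S h ⟨some a0, hc⟩] at this
          exact hh.1 _ this
      rw [e', Finset.sum_empty]
      positivity
  rw [mul_assoc _ ((La q : ℝ) ^ (n + 1)), ← hX]
  push_cast
  nlinarith

theorem x9 (h3' : St_X3) (h6 : St_A6a) : St_X9 := by
  classical
  intro n
  obtain ⟨C3, hC3⟩ := h3' (n + 3) (by omega)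
  choose C6 hC6 using h6
  set CC6 : ℕ := ∑ m ∈ range (n + 3), ⌈C6 m⌉₊ with hCC6
  have hc6 : ∀ m, m < n + 3 → C6 m ≤ CC6 := fun m hm => (Nat.le_ceil _).trans (by
    exact_mod_cast Finset.single_le_sum (f := fun m => ⌈C6 m⌉₊) (fun _ _ => Nat.zero_le _)
      (mem_range.2 hm))
  refine ⟨3 + 2 ^ (n + 3) * (CC6 + C3), ?_⟩
  intro q _ hS hq D K0 hD1 hDn hK0 hKL
  have hCle : C3 ≤ 3 + 2 ^ (n + 3) * (CC6 + C3) := by
    have : 1 * (CC6 + C3) ≤ 2 ^ (n + 3) * (CC6 + C3) :=
      Nat.mul_le_mul_right _ Nat.one_le_two_pow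
    omega
  have h3 : 3 ≤ q := le_trans (Nat.le_add_right _ _) hq
  have hL : (1 : ℝ) ≤ La q := by exact_mod_cast La_pos h3
  set X : ℝ := (La q : ℝ) ^ (n + 2) with hX
  have hX0 : 0 ≤ X := by positivity
  refine le_trans (supp_bound (q := q) (n := n) ((CC6 + C3) * X) _ _ ?_) ?_
  · intro S
    simp only [BdL_ex, XW_ex, wm_ex]
    have hcard := card_le S
    have hsub : (univ : Finset (S → ZMod q)).filter (fun h => (∀ a, h a ≠ 0) ∧
          ex S h none ≠ 0 ∧ ¬ BdL D K0 h) ⊆
          (univ : Finset (S → ZMod q)).filter (fun h => (∀ a, h a ≠ 0) ∧ ¬ BdL D K0 h) := by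
      intro h hh
      rw [mem_filter] at hh ⊢
      exact ⟨mem_univ _, hh.2.1, hh.2.2.2⟩
    have hnn : ∀ h : S → ZMod q, 0 ≤ wm h * min 1 (XW D K0 h) := fun h =>
      mul_nonneg (wm_nonneg h) (le_min zero_le_one (XW_nonneg D K0 h))
    refine (Finset.sum_le_sum_of_subset_of_nonneg hsub fun h _ _ => hnn h).trans ?_
    rcases Nat.lt_or_ge (Fintype.card S) (n + 3) with hlt | hge
    · have h10 := (hC6 (Fintype.card S)).2 q h3 S rfl
      have h11 : ∑ h ∈ (univ : Finset (S → ZMod q)).filter (fun h => (∀ a, h a ≠ 0) ∧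
          ¬ BdL D K0 h), wm h * min 1 (XW D K0 h) ≤
          ∑ h : S → ZMod q, wm h := by
        refine (Finset.sum_le_sum fun h _ => ?_).trans
          (Finset.sum_le_sum_of_subset_of_nonneg (Finset.filter_subset _ _)
            fun h _ _ => wm_nonneg h)
        exact mul_le_of_le_one_right (wm_nonneg h) (min_le_left _ _)
      refine h11.trans (h10.trans ?_)
      have h12 : (La q : ℝ) ^ Fintype.card S ≤ X := pow_le_pow_right₀ hL (by omega)
      have h13 := hc6 _ hlt
      calc C6 (Fintype.card S) * (La q : ℝ) ^ Fintype.card S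
          ≤ CC6 * X := mul_le_mul h13 h12 (by positivity) (by positivity)
        _ ≤ (CC6 + C3) * X := by
          refine mul_le_mul_of_nonneg_right ?_ (by positivity)
          have : (0 : ℝ) ≤ C3 := Nat.cast_nonneg _
          linarith
    · have hceq : Fintype.card S = n + 3 := le_antisymm hcard hge
      have h10 := hC3 q hS (hCle.trans hq) S hceq D K0 hD1 (by omega) (thr le_rfl hK0)
      have h14 : ∑ h ∈ (univ : Finset (S → ZMod q)).filter (fun h => (∀ a, h a ≠ 0) ∧
          ¬ BdL D K0 h), wm h * min 1 (XW D K0 h) =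
          ∑ h ∈ (univ : Finset (S → ZMod q)).filter (fun h => (∀ a, h a ≠ 0) ∧
          ¬ BdL D K0 h), wt h * min 1 (XW D K0 h) := by
        refine Finset.sum_congr rfl fun h hh => ?_
        rw [mem_filter] at hh
        rw [wt_eq_wm hh.2.1]
      rw [h14]
      refine h10.trans ?_
      have h15 : n + 3 - 1 = n + 2 := by omega
      rw [h15]
      refine mul_le_mul_of_nonneg_right ?_ (by positivity)
      have : (0 : ℝ) ≤ CC6 := Nat.cast_nonneg _
      linarith
  push_cast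
  nlinarith

theorem x6 (h4 : St_X4) (h6a : St_A6a) (h6b : St_A6b) : St_X6 := by
  classical
  intro n
  obtain ⟨C1, hC1⟩ := XE h4 n
  obtain ⟨C6, hC60, hC6⟩ := h6b (n + 3) (by omega)
  refine ⟨3 + C1 + ⌈C6⌉₊ + 2 ^ (n + 3) * (4 * C1), ?_⟩
  intro q _ hS hq D K0 hD1 hDn hK0 hKL
  have h3 : 3 ≤ q := by omega
  have hLN : 1 ≤ La q := La_pos h3
  have hL : (1 : ℝ) ≤ La q := by exact_mod_cast hLN
  have hE := hC1 q hS (by omega) D K0 hD1 hDn hK0 hKL
  have hB := hC6 q h3 (Option (Fin (n + 2))) (by simp) D K0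
  set Y : ℝ := (2:ℝ) ^ (D * La q) / 2 ^ K0 with hY
  have hY0 : 0 ≤ Y := by positivity
  -- the vectors with a bad multiple
  have hcard1 : (((univ : Finset (Option (Fin (n + 2)) → ZMod q)).filter (fun H => H none = 1 ∧
      BdL D K0 H)).card : ℝ) ≤ C6 * (La q : ℝ) ^ (n + 2) * Y := by
    let cc : (Option (Fin (n + 2)) → ZMod q) → ZMod q := fun H =>
      if h : BdL D K0 H then Classical.choose h else 1
    have hcc : ∀ H, BdL D K0 H → cc H ≠ 0 ∧ Bd D K0 (fun o => cc H * H o) := by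
      intro H h
      have e : cc H = Classical.choose h := dif_pos h
      rw [e]
      exact Classical.choose_spec h
    have hle : ((univ : Finset (Option (Fin (n + 2)) → ZMod q)).filter (fun H => H none = 1 ∧
        BdL D K0 H)).card ≤ ((univ : Finset (Option (Fin (n + 2)) → ZMod q)).filter
          (fun h => Bd D K0 h)).card := by
      refine Finset.card_le_card_of_injOn (fun H => fun o => cc H * H o) ?_ ?_
      · intro H hH
        rw [Finset.mem_coe, mem_filter] at hH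
        rw [Finset.mem_coe, mem_filter]
        exact ⟨mem_univ _, (hcc H hH.2.2).2⟩
      · intro H hH H' hH' hEq
        rw [Finset.mem_coe, mem_filter] at hH hH'
        have h0 := congrFun hEq none
        simp only [hH.2.1, hH'.2.1, mul_one] at h0
        funext o
        have ho := congrFun hEq o
        simp only [h0] at ho
        exact mul_left_cancel₀ (hcc H' hH'.2.2).1 ho
    have h1 : (((univ : Finset (Option (Fin (n + 2)) → ZMod q)).filter (fun H => H none = 1 ∧
        BdL D K0 H)).card : ℝ) ≤ (((univ : Finset (Option (Fin (n + 2)) → ZMod q)).filter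
          (fun h => Bd D K0 h)).card : ℝ) := by exact_mod_cast hle
    refine h1.trans (hB.trans (le_of_eq ?_))
    have : n + 3 - 1 = n + 2 := by omega
    rw [this, hY, mul_div_assoc]
  -- the lines with large total weight
  have hcard2 : (((univ : Finset (Option (Fin (n + 2)) → ZMod q)).filter (fun H => H none = 1 ∧
      ¬ BdL D K0 H ∧ 2 ^ (n + 6) < XW D K0 H)).card : ℝ) ≤
      2 ^ (n + 3) * (4 * C1) * (La q : ℝ) ^ (n + 2) * Y := by
    set T1 := (univ : Finset (Option (Fin (n + 2)) → ZMod q)).filter (fun H => H none = 1 ∧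
      ¬ BdL D K0 H ∧ 2 ^ (n + 6) < XW D K0 H) with hT1
    set T := (univ : Finset (Option (Fin (n + 2)) → ZMod q)).filter (fun H => H none ≠ 0 ∧
      ¬ BdL D K0 H ∧ 2 ^ (n + 6) < XW D K0 H) with hT
    set U := (univ : Finset (ZMod q)).filter (fun c => c ≠ 0) with hU
    set w : (Option (Fin (n + 2)) → ZMod q) → ℝ := fun h =>
      (2:ℝ) ^ (D * La q) / 2 ^ (K0 + sz h) with hw
    have hw0 : ∀ h, 0 ≤ w h := fun h => by rw [hw]; positivity
    have s1 : (T1.card : ℝ) ≤ ∑ H ∈ T1, XW D K0 H := by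
      rw [Finset.card_eq_sum_ones]
      push_cast
      refine Finset.sum_le_sum fun H hH => ?_
      rw [hT1, mem_filter] at hH
      have : (1:ℝ) ≤ 2 ^ (n + 6) := one_le_pow₀ (by norm_num)
      exact this.trans hH.2.2.2.le
    have s2 : ∑ H ∈ T1, XW D K0 H = ∑ p ∈ T1 ×ˢ U, w (fun a => p.2 * p.1 a) := by
      rw [Finset.sum_product]
      rfl
    have s3 : ∑ p ∈ T1 ×ˢ U, w (fun a => p.2 * p.1 a) ≤ ∑ H ∈ T, w H := by
      have hinj : Set.InjOn (fun p : (Option (Fin (n + 2)) → ZMod q) × ZMod q =>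
          (fun a => p.2 * p.1 a)) (T1 ×ˢ U : Finset _) := by
        rintro ⟨H, c⟩ hp ⟨H', c'⟩ hp' hEq
        rw [Finset.mem_coe, mem_product, hT1, mem_filter, hU, mem_filter] at hp hp'
        have h0 : c * H none = c' * H' none := congrFun hEq none
        have e1 : H none = 1 := hp.1.2.1
        have e2 : H' none = 1 := hp'.1.2.1
        rw [e1, e2, mul_one, mul_one] at h0
        subst h0
        refine Prod.ext ?_ rfl
        funext o
        exact mul_left_cancel₀ hp.2.2 (congrFun hEq o)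
      rw [← Finset.sum_image (f := w) hinj]
      refine Finset.sum_le_sum_of_subset_of_nonneg ?_ fun h _ _ => hw0 h
      intro H' hH'
      rw [Finset.mem_image] at hH'
      obtain ⟨⟨H, c⟩, hp, rfl⟩ := hH'
      rw [mem_product, hT1, mem_filter, hU, mem_filter] at hp
      rw [hT, mem_filter]
      refine ⟨mem_univ _, ?_, ?_, ?_⟩
      · have e1 : H none = 1 := hp.1.2.1
        change c * H none ≠ 0
        rw [e1, mul_one]
        exact hp.2.2
      · simp only
        rw [BdL_smul hp.2.2]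
        exact hp.1.2.2.1
      · simp only
        rw [XW_smul hp.2.2]
        exact hp.1.2.2.2
    have s4 : ∑ H ∈ T, w H ≤ Y * 2 ^ (n + 3) * ∑ H ∈ T, wm H := by
      rw [Finset.mul_sum]
      refine Finset.sum_le_sum fun H _ => ?_
      have h1 := two_pow_sz H
      have h2 : Fintype.card (Option (Fin (n + 2))) = n + 3 := by simp
      rw [h2] at h1
      have h3' : w H = Y * (1 / 2 ^ sz H) := by
        rw [hw, hY]
        simp only
        rw [pow_add]
        field_simp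
      rw [h3', mul_assoc]
      exact mul_le_mul_of_nonneg_left h1 hY0
    have s5 : ∑ H ∈ T, wm H ≤ C1 * (La q : ℝ) ^ (n + 1) * (4 * La q) := by
      refine hE.trans ?_
      exact mul_le_mul_of_nonneg_left (uu_sq q hLN) (by positivity)
    calc (T1.card : ℝ) ≤ ∑ H ∈ T, w H := by rw [s2] at s1; exact s1.trans s3
      _ ≤ Y * 2 ^ (n + 3) * (C1 * (La q : ℝ) ^ (n + 1) * (4 * La q)) :=
          s4.trans (mul_le_mul_of_nonneg_left s5 (by positivity))
      _ = 2 ^ (n + 3) * (4 * C1) * (La q : ℝ) ^ (n + 2) * Y := by ring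
  have hsplit : ((univ : Finset (Option (Fin (n + 2)) → ZMod q)).filter (fun H => H none = 1 ∧
      BX (2 ^ (n + 6)) D K0 H)).card ≤
      ((univ : Finset (Option (Fin (n + 2)) → ZMod q)).filter (fun H => H none = 1 ∧
        BdL D K0 H)).card +
      ((univ : Finset (Option (Fin (n + 2)) → ZMod q)).filter (fun H => H none = 1 ∧
        ¬ BdL D K0 H ∧ 2 ^ (n + 6) < XW D K0 H)).card := by
    refine (Finset.card_le_card ?_).trans (Finset.card_union_le _ _)
    intro H hH
    rw [mem_filter] at hH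
    rw [mem_union, mem_filter, mem_filter]
    by_cases hb : BdL D K0 H
    · exact Or.inl ⟨mem_univ _, hH.2.1, hb⟩
    · rcases hH.2.2 with h' | h'
      · exact absurd h' hb
      · exact Or.inr ⟨mem_univ _, hH.2.1, hb, h'⟩
  have hsplit' : (((univ : Finset (Option (Fin (n + 2)) → ZMod q)).filter (fun H => H none = 1 ∧
      BX (2 ^ (n + 6)) D K0 H)).card : ℝ) ≤
      (((univ : Finset (Option (Fin (n + 2)) → ZMod q)).filter (fun H => H none = 1 ∧
        BdL D K0 H)).card : ℝ) +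
      (((univ : Finset (Option (Fin (n + 2)) → ZMod q)).filter (fun H => H none = 1 ∧
        ¬ BdL D K0 H ∧ 2 ^ (n + 6) < XW D K0 H)).card : ℝ) := by exact_mod_cast hsplit
  refine hsplit'.trans ((add_le_add hcard1 hcard2).trans ?_)
  have hceil : C6 ≤ (⌈C6⌉₊ : ℝ) := Nat.le_ceil _
  rw [mul_div_assoc, ← hY, ← add_mul, ← add_mul]
  push_cast
  have hZ : 0 ≤ (La q : ℝ) ^ (n + 2) * Y := by positivity
  have hC10 : (0:ℝ) ≤ C1 := Nat.cast_nonneg _
  rw [mul_assoc, mul_assoc]
  refine mul_le_mul_of_nonneg_right ?_ hZ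
  linarith

end Pool.Agent.Y496.SX
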